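import Mathlib

set_option autoImplicit false

namespace Pool.Agent.Results.MP_2c23da_an.No

open Set Metric Filter Topology

variable (X : Type) [NormedAddCommGroup X] [NormedSpace ℝ X]

/-- slice index -/
noncomputable def Ts : ℝ := sInf {r | 0 < r ∧ ∃ (x : X) (f : StrongDual ℝ X) (α : ℝ), ‖x‖ = 1 ∧
  ‖f‖ = 1 ∧ 0 < α ∧ {y | ‖y‖ ≤ 1 ∧ 1 - α < f y} ⊆ closedBall x r}

/-- weak-star slice index of the dual -/
noncomputable def Tw : ℝ := sInf {r | 0 < r ∧ ∃ (f : StrongDual ℝ X) (x : X) (α : ℝ), ‖f‖ = 1 ∧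
  ‖x‖ = 1 ∧ 0 < α ∧ {g : StrongDual ℝ X | ‖g‖ ≤ 1 ∧ 1 - α < g x} ⊆ closedBall f r}

/-- weakly compact operators -/
def WC (T : X →L[ℝ] X) : Prop :=
  IsCompact (closure (toWeakSpace ℝ X '' (T '' closedBall 0 1)))

/-- infimum over weakly compact perturbations -/
noncomputable def W : ℝ := sInf {r | ∃ T : X →L[ℝ] X, ‖T‖ = 1 ∧ WC X T ∧ r = ‖T + 1‖}

theorem z {S : Set ℝ} (h : ∀ r, r ∈ S ↔ 0 < r) : sInf S = 0 := by
  rw [show S = Ioi 0 from ext h, csInf_Ioi]

abbrev Y := WithLp 2 (C(unitInterval, ℝ) × ℝ)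

theorem nsq (y : Y) : ‖y‖ ^ 2 = ‖y.fst‖ ^ 2 + y.snd ^ 2 := by
  rw [WithLp.prod_norm_sq_eq_of_L2, Real.norm_eq_abs, sq_abs]

theorem result : ∃ (X : Type) (_ : NormedAddCommGroup X) (_ : NormedSpace ℝ X),
    CompleteSpace X ∧ Nontrivial X ∧ Ts X = 0 ∧ Tw X = 0 ∧ 1 ≤ W X := by
  let e : Y := WithLp.toLp 2 (0, 1)
  let f : StrongDual ℝ Y := WithLp.sndL 2 ℝ _ _
  have fe : ∀ y : Y, f y = y.snd := fun _ => rfl
  have ne : ‖e‖ = 1 := by simp [e]
  have fl : ∀ y : Y, |y.snd| ≤ ‖y‖ := fun y =>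
    abs_le_of_sq_le_sq' (by rw [nsq]; nlinarith [sq_nonneg ‖y.fst‖]) (norm_nonneg _) |> abs_le.2
  have nf : ‖f‖ = 1 := le_antisymm (f.opNorm_le_bound zero_le_one fun y => by simpa [fe] using fl y)
    (by simpa [fe, e] using f.le_opNorm e)
  refine ⟨Y, inferInstance, inferInstance, inferInstance, inferInstance,
    z fun r => ⟨fun h => h.1, fun h => ⟨h, e, f, r ^ 2 / 2, ne, nf, by positivity, fun y hy => ?_⟩⟩,
    z fun r => ⟨fun h => h.1, fun h => ⟨h, f, e, min (r / 4) (r ^ 2 / 8), nf, ne, by positivity,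
      fun g hg => ?_⟩⟩, le_csInf ⟨_, f.smulRight e, by simp [nf, ne], ?_, rfl⟩ ?_⟩
  · rw [mem_closedBall, dist_eq_norm]
    refine abs_le_of_sq_le_sq' ?_ h.le |>.2
    have a := nsq y
    have b := hy.2
    rw [nsq]
    simp only [WithLp.sub_fst, WithLp.sub_snd, e, WithLp.toLp_fst, WithLp.toLp_snd, sub_zero, fe] at *
    nlinarith [hy.1, norm_nonneg y]
  · rw [mem_closedBall, dist_eq_norm]
    refine ContinuousLinearMap.opNorm_le_of_unit_norm h.le fun y hy => ?_
    have key : ∀ u : Y, u.snd = 0 → ‖u‖ ≤ 1 → g u ≤ r / 2 := fun u h1 h2 => by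
      have a : ‖(r / 2) • u + e‖ ≤ 1 + r ^ 2 / 8 := by
        refine abs_le_of_sq_le_sq' ?_ (by positivity) |>.2
        have := nsq u
        rw [nsq]
        simp only [WithLp.add_fst, WithLp.add_snd, e, WithLp.toLp_fst, WithLp.toLp_snd, add_zero,
          WithLp.smul_fst, WithLp.smul_snd, h1, smul_zero, zero_add, norm_smul, mul_pow,
          Real.norm_eq_abs, sq_abs] at *
        have : ‖u.fst‖ ^ 2 ≤ 1 := by nlinarith [norm_nonneg u]
        nlinarith [sq_nonneg (r ^ 2)]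
      have b := (le_abs_self _).trans (g.le_of_opNorm_le hg.1 ((r / 2) • u + e))
      rw [map_add, map_smul, smul_eq_mul] at b
      nlinarith [hg.2, min_le_right (r / 4) (r ^ 2 / 8)]
    let u : Y := WithLp.toLp 2 (y.fst, 0)
    have hu : ‖u‖ ≤ 1 := by
      have := nsq y
      simp only [u, WithLp.norm_toLp_fst]
      nlinarith [norm_nonneg y.fst, sq_nonneg y.snd]
    have a := key u rfl hu
    have b := key (-u) (by simp [u]) (by simpa)
    have c : y = u + y.snd • e := by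
      apply (WithLp.equiv 2 _).injective; ext <;> simp [u, e]
    have d := (le_abs_self _).trans (g.le_of_opNorm_le hg.1 e)
    have t := abs_le.1 ((fl y).trans hy.le)
    rw [sub_apply, fe, c, map_add, map_smul, ← c, Real.norm_eq_abs, abs_le]
    rw [map_neg] at b
    rw [ne] at d
    have := min_le_left (r / 4) (r ^ 2 / 8)
    constructor <;> simp only [smul_eq_mul] <;> nlinarith [hg.2]
  · have : IsCompact ((fun t : ℝ => toWeakSpace ℝ Y (t • e)) '' Icc (-1) 1) :=
      isCompact_Icc.image ((toWeakSpaceCLM ℝ Y).continuous.comp (by fun_prop))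
    refine this.of_isClosed_subset isClosed_closure (closure_minimal ?_ this.isClosed)
    rintro _ ⟨_, ⟨y, hy, rfl⟩, rfl⟩
    exact ⟨y.snd, abs_le.1 ((fl y).trans (mem_closedBall_zero_iff.1 hy)), rfl⟩
  · rintro _ ⟨T, -, hT, rfl⟩
    by_contra c
    let U := Units.oneSub (T + 1) (not_le.1 c)
    have hU : ∀ y, T (-(U⁻¹).1 y) = y := fun y => by
      have := congrArg (· y) U.mul_inv
      simpa [U] using this
    obtain ⟨δ, d0, d1⟩ : ∃ δ > (0 : ℝ), δ * ‖(U⁻¹).1‖ ≤ 1 :=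
      ⟨1 / (‖(U⁻¹).1‖ + 1), by positivity, by
        rw [one_div_mul_eq_div, div_le_one (by positivity)]; linarith⟩
    let p : ℕ → Y := fun n => WithLp.toLp 2 (⟨fun x => δ * x ^ n, by fun_prop⟩, 0)
    have np : ∀ n, ‖p n‖ ≤ δ := fun n => by
      simp only [p, WithLp.norm_toLp_fst]
      refine (ContinuousMap.norm_le _ d0.le).2 fun x => ?_
      simp only [ContinuousMap.coe_mk, norm_mul, Real.norm_eq_abs, abs_of_pos d0]
      exact mul_le_of_le_one_right d0.le (by
        rw [abs_of_nonneg (pow_nonneg x.2.1 _)]; exact pow_le_one₀ x.2.1 x.2.2)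
    obtain ⟨a, -, ha⟩ := hT.exists_mapClusterPt (f := atTop) (u := fun n => toWeakSpace ℝ Y (p n))
      (tendsto_principal.2 (.of_forall fun n => subset_closure ⟨_, ⟨_, by
        rw [mem_closedBall_zero_iff, norm_neg]
        exact ((U⁻¹).1.le_of_opNorm_le_of_le le_rfl (np n)).trans (by linarith), hU _⟩, rfl⟩))
    have ev : ∀ (x : unitInterval) (l : ℝ), Tendsto (fun n : ℕ => δ * (x : ℝ) ^ n) atTop (𝓝 l) →
        ((toWeakSpace ℝ Y).symm a).fst x = l := fun x l hl => by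
      let φ : StrongDual ℝ Y := ContinuousMap.evalCLM ℝ x ∘L WithLp.fstL 2 ℝ _ _
      have := ha.continuousAt_comp (WeakBilin.eval_continuous (topDualPairing ℝ Y).flip φ).continuousAt
      exact eq_of_nhds_neBot (this.clusterPt.mono hl)
    set h := ((toWeakSpace ℝ Y).symm a).fst
    have h1 : h 1 = δ := ev 1 δ (by simp)
    have h0 : ∀ x ∈ Iio (1 : unitInterval), h x = 0 := fun x hx => ev x 0 (by
      simpa using (tendsto_pow_atTop_nhds_zero_of_lt_one x.2.1 hx).const_mul δ)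
    have := (isClosed_eq h.continuous continuous_const).closure_subset_iff.2 h0
      (show 1 ∈ closure (Iio (1 : unitInterval)) by rw [closure_Iio' ⟨0, zero_lt_one⟩]; simp)
    exact d0.ne' (h1.symm.trans this)

end Pool.Agent.Results.MP_2c23da_an.No
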